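import Pool.Agent.NDR.StmtsC

/-!
# Row CFR of squad NDR: a field with independent constants
-/

set_option autoImplicit false

namespace Pool.Agent.NDR.H8

open Pool.Agent.NDR

section ext

variable {A K : Type} [CommRing A] [Field K] [Algebra A K]

/-- the ring homomorphism `a ↦ (a, d a)` to the dual numbers of the fraction field -/
noncomputable def dn (d : A →+ A) (hd : ∀ a b, d (a * b) = a * d b + b * d a) :
    A →+* TrivSqZeroExt K K where
  toFun a := (algebraMap A K a, algebraMap A K (d a))
  map_one' := by
    have h1 : d 1 = 0 := by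
      have h := hd 1 1
      rw [one_mul, one_mul] at h
      exact left_eq_add.1 h
    ext
    · simp
    · rw [h1, map_zero]
      rfl
  map_mul' a b := by
    ext
    · simp only [map_mul]
      rfl
    · simp only [hd, map_add, map_mul]
      show algebraMap A K a * algebraMap A K (d b) + algebraMap A K b * algebraMap A K (d a)
        = algebraMap A K a * algebraMap A K (d b) + algebraMap A K (d a) * algebraMap A K b
      ring
  map_zero' := by
    ext
    · simp
    · simp
  map_add' a b := by
    ext
    · simp only [map_add]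
      rfl
    · simp only [map_add]
      rfl

theorem dn_fst (d : A →+ A) (hd : ∀ a b, d (a * b) = a * d b + b * d a) (a : A) :
    (dn (K := K) d hd a).fst = algebraMap A K a := rfl

theorem dn_snd (d : A →+ A) (hd : ∀ a b, d (a * b) = a * d b + b * d a) (a : A) :
    (dn (K := K) d hd a).snd = algebraMap A K (d a) := rfl

variable [IsFractionRing A K]

theorem dn_unit (d : A →+ A) (hd : ∀ a b, d (a * b) = a * d b + b * d a)
    (y : nonZeroDivisors A) : IsUnit (dn (K := K) d hd (y : A)) := by
  rw [TrivSqZeroExt.isUnit_iff_isUnit_fst, dn_fst]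
  exact IsLocalization.map_units K y

/-- the extension to the fraction field -/
noncomputable def dnK (d : A →+ A) (hd : ∀ a b, d (a * b) = a * d b + b * d a) :
    K →+* TrivSqZeroExt K K :=
  IsLocalization.lift (M := nonZeroDivisors A) (g := dn (K := K) d hd) (dn_unit d hd)

theorem dnK_alg (d : A →+ A) (hd : ∀ a b, d (a * b) = a * d b + b * d a) (a : A) :
    dnK (K := K) d hd (algebraMap A K a) = dn d hd a :=
  IsLocalization.lift_eq _ _

theorem dnK_fst (d : A →+ A) (hd : ∀ a b, d (a * b) = a * d b + b * d a) (x : K) :
    (dnK (K := K) d hd x).fst = x := by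
  have h : ((TrivSqZeroExt.fstHom ℤ K K).toRingHom).comp (dnK (K := K) d hd)
      = RingHom.id K := by
    apply IsLocalization.ringHom_ext (nonZeroDivisors A)
    ext a
    simp only [RingHom.comp_apply, RingHom.id_apply, dnK_alg]
    exact dn_fst d hd a
  exact congrArg (fun f : K →+* K => f x) h

/-- the extension of a derivation to the fraction field -/
noncomputable def dK (d : A →+ A) (hd : ∀ a b, d (a * b) = a * d b + b * d a) :
    Derivation ℤ K K :=
  Derivation.mk' (((TrivSqZeroExt.sndHom K K).toAddMonoidHom.comp
    (dnK (K := K) d hd).toAddMonoidHom).toIntLinearMap) fun x y => by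
      show (dnK (K := K) d hd (x * y)).snd
        = x • (dnK (K := K) d hd y).snd + y • (dnK (K := K) d hd x).snd
      rw [map_mul, TrivSqZeroExt.snd_mul, dnK_fst, dnK_fst]
      show x * (dnK (K := K) d hd y).snd + (dnK (K := K) d hd x).snd * y = _
      rw [smul_eq_mul, smul_eq_mul, mul_comm y]

theorem dK_alg (d : A →+ A) (hd : ∀ a b, d (a * b) = a * d b + b * d a) (a : A) :
    dK (K := K) d hd (algebraMap A K a) = algebraMap A K (d a) := by
  show (dnK (K := K) d hd (algebraMap A K a)).snd = _
  rw [dnK_alg, dn_snd]

end ext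

theorem pd_mul {σ : Type} (i : σ) (a b : MvPolynomial σ ℂ) :
    (MvPolynomial.pderiv (R := ℂ) i).toLinearMap.toAddMonoidHom (a * b)
      = a * (MvPolynomial.pderiv (R := ℂ) i).toLinearMap.toAddMonoidHom b
        + b * (MvPolynomial.pderiv (R := ℂ) i).toLinearMap.toAddMonoidHom a :=
  Derivation.leibniz (MvPolynomial.pderiv (R := ℂ) i) a b

/-- **CFR** -/
theorem cfr : CfrStmt := by
  intro σ _ _
  refine ⟨FractionRing (MvPolynomial σ ℂ), inferInstance, inferInstance,
    fun i => algebraMap (MvPolynomial σ ℂ) _ (MvPolynomial.X i),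
    fun i => dK (MvPolynomial.pderiv (R := ℂ) i).toLinearMap.toAddMonoidHom (pd_mul i), ?_, ?_⟩
  · intro i a
    rw [IsScalarTower.algebraMap_apply ℂ (MvPolynomial σ ℂ), dK_alg]
    have h : (MvPolynomial.pderiv (R := ℂ) i).toLinearMap.toAddMonoidHom
        (algebraMap ℂ (MvPolynomial σ ℂ) a) = 0 := by
      show MvPolynomial.pderiv i (MvPolynomial.C a) = 0
      exact MvPolynomial.pderiv_C
    rw [h, map_zero]
  · intro i j
    rw [dK_alg]
    have h : (MvPolynomial.pderiv (R := ℂ) i).toLinearMap.toAddMonoidHom
        (MvPolynomial.X j) = if i = j then 1 else 0 := by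
      show MvPolynomial.pderiv i (MvPolynomial.X j) = _
      rw [MvPolynomial.pderiv_X, Pi.single_apply]
      by_cases h : i = j
      · rw [if_pos h, if_pos h.symm]
      · rw [if_neg h, if_neg (Ne.symm h)]
    rw [h]
    split_ifs
    · exact map_one _
    · exact map_zero _

end Pool.Agent.NDR.H8
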